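import Pool.Agent.P8H87.SK.Cover

/-!
# Positivity of bipartite chromatic polynomials: few vertices cover the edges at the vertices of
degree at least 3 of one side, or these have few neighbours
-/

set_option autoImplicit false

namespace Pool.Agent.Results.MP_abed8b_co.FewHeavyNeighbours

open Finset Polynomial Pool.Agent.P8H87.SK

/-- Let `G` be a finite bipartite graph with the sides `A` and its complement, and let `q` be a
positive real number above the degrees of all the vertices of `A`. If the number of the vertices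
outside of `A` with a neighbour of degree at least 3 is at most `2 * ⌊q⌋ + 2`, or if all the edges
at the vertices of degree at least 3 of `A` are covered by fewer than `q` vertices (for example if
fewer than `q` vertices of `A` have degree at least 3), then the chromatic polynomial of `G` (the
unique real polynomial whose value at every natural number `n` is the number of the proper
colourings with `n` colours) is positive at `q`. -/
theorem result (V : Type) [Fintype V] (G : SimpleGraph V) [DecidableRel G.Adj] (A : Set V)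
    (hbip : ∀ u v : V, G.Adj u v → (u ∈ A ↔ v ∉ A)) (q : ℝ) (hq0 : 0 < q)
    (hq : ∀ v ∈ A, (G.degree v : ℝ) < q)
    (hb : ({b : V | b ∉ A ∧ ∃ a, G.Adj b a ∧ 3 ≤ G.degree a}).ncard ≤ 2 * ⌊q⌋₊ + 2 ∨
      ∃ W : Finset V, (W.card : ℝ) < q ∧
        ∀ a ∈ A, 3 ≤ G.degree a → ∀ b, G.Adj a b → a ∈ W ∨ b ∈ W) :
    ∃ P : ℝ[X], (∀ n : ℕ, P.eval (n : ℝ) = Nat.card (G.Coloring (Fin n))) ∧
      (∀ Q : ℝ[X], (∀ n : ℕ, Q.eval (n : ℝ) = Nat.card (G.Coloring (Fin n))) → Q = P) ∧
      0 < P.eval q := by
  classical
  obtain ⟨P, hP⟩ := exists_poly (Nb G A)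
  have hP' : ∀ n : ℕ, P.eval (n : ℝ) = Nat.card (G.Coloring (Fin n)) := fun n => by
    rw [hP, card_col G A hbip n]
    exact sum_congr (by ext c; simp only [mem_univ]) fun _ _ => rfl
  refine ⟨P, hP', fun Q hQ => poly_eq fun n => by rw [hQ, hP'], ?_⟩
  have hx : ∀ a, ((Nb G A a).card : ℝ) < q := fun a => by
    refine lt_of_le_of_lt ?_ (hq a.1 a.2)
    exact_mod_cast card_Nb G A a
  rcases hb with hb | hb
  · refine mix_pos' hP hx hq0 ?_
    have key : ∀ F : Finset {v : V // v ∉ A},
        (∀ b ∈ F, ∃ a, b ∈ Nb G A a ∧ 3 ≤ (Nb G A a).card) → F.card ≤ 2 * (⌊q⌋₊ + 1) := by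
      intro F hF
      have h1 : (F.map (Function.Embedding.subtype _) : Finset V).card ≤ 2 * ⌊q⌋₊ + 2 := by
        refine le_trans ?_ hb
        rw [← Set.ncard_coe_finset]
        refine Set.ncard_le_ncard ?_ (Set.toFinite _)
        intro v hv
        rw [mem_coe, mem_map] at hv
        obtain ⟨b, hb', rfl⟩ := hv
        obtain ⟨a, ha, h3⟩ := hF b hb'
        exact ⟨b.2, a.1, ((mem_Nb G A).1 ha).symm, h3.trans (card_Nb G A a)⟩
      rw [card_map] at h1
      omega
    exact key
  · obtain ⟨W, hW, hcov⟩ := hb
    refine mix_pos_cover hP hx hq0 (W.subtype (fun v => v ∈ A)) (W.subtype (fun v => v ∉ A))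
      (fun a h3 ha b hb' => ?_) ?_
    · have h1 := hcov a.1 a.2 (h3.trans (card_Nb G A a)) b.1 ((mem_Nb G A).1 hb')
      rcases h1 with h1 | h1
      · exact absurd (mem_subtype.2 h1) ha
      · exact mem_subtype.2 h1
    · rw [card_subtype, card_subtype]
      have h1 : (W.filter (fun v => v ∈ A)).card + (W.filter (fun v => v ∉ A)).card = W.card :=
        card_filter_add_card_filter_not _
      have h2 : ((W.filter (fun v => v ∈ A)).card : ℝ) + (W.filter (fun v => v ∉ A)).card =
          W.card := by exact_mod_cast h1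
      linarith

end Pool.Agent.Results.MP_abed8b_co.FewHeavyNeighbours
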